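import Pool.Agent.H64.BTL.Stmts

/-!
Row ALG of the board btl: Kronecker's theorem with p-adic places.
-/

set_option autoImplicit false

universe u

namespace Pool.BTL

namespace ALGH

open Polynomial

/-- a rational number that is not an integer has norm larger than one at some prime -/
theorem exists_prime (r : ℚ) (hr : ∀ z : ℤ, (z : ℚ) ≠ r) :
    ∃ (p : ℕ) (_ : Fact p.Prime), 1 < ‖(r : ℚ_[p])‖ := by
  have hden : r.den ≠ 1 := by
    intro h
    exact hr r.num ((Rat.den_eq_one_iff r).1 h)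
  obtain ⟨p, hp, hpd⟩ := Nat.exists_prime_and_dvd hden
  have hF : Fact p.Prime := ⟨hp⟩
  refine ⟨p, hF, ?_⟩
  have h1 : ‖((r.den : ℕ) : ℚ_[p])‖ < 1 := Padic.norm_natCast_lt_one_iff.2 hpd
  have h2 : ‖((r.num : ℤ) : ℚ_[p])‖ = 1 := by
    rw [Padic.norm_intCast_eq_one_iff]
    have h3 := r.reduced
    have h4 : Nat.Coprime r.num.natAbs p := Nat.Coprime.coprime_dvd_right hpd h3
    rw [Int.isCoprime_iff_gcd_eq_one]
    exact h4
  have h3 : (r : ℚ_[p]) * ((r.den : ℕ) : ℚ_[p]) = ((r.num : ℤ) : ℚ_[p]) := by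
    have h4 := Rat.mul_den_eq_num r
    have h5 : ((r * (r.den : ℚ) : ℚ) : ℚ_[p]) = (((r.num : ℤ) : ℚ) : ℚ_[p]) := by rw [h4]
    push_cast at h5
    exact h5
  have h4 : ‖(r : ℚ_[p])‖ * ‖((r.den : ℕ) : ℚ_[p])‖ = 1 := by rw [← norm_mul, h3, h2]
  by_contra h5
  rw [not_lt] at h5
  have h6 := norm_nonneg (r : ℚ_[p])
  have h7 := norm_nonneg ((r.den : ℕ) : ℚ_[p])
  nlinarith

/-- the unit ball -/
def ball (p : ℕ) [Fact p.Prime] : Subring (PadicAlgCl p) where
  carrier := {x | ‖x‖ ≤ 1}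
  zero_mem' := by simp
  one_mem' := by simp
  add_mem' := by
    intro a b ha hb
    exact (IsUltrametricDist.norm_add_le_max a b).trans (max_le ha hb)
  neg_mem' := by
    intro a ha
    simpa using ha
  mul_mem' := by
    intro a b ha hb
    simp only [Set.mem_ofPred_eq] at ha hb ⊢
    rw [norm_mul]
    exact mul_le_one₀ ha (norm_nonneg _) hb

theorem coeff_le (p : ℕ) [Fact p.Prime] (f : ℚ[X]) (hf : f.Monic)
    (hroot : ∀ y : PadicAlgCl p, aeval y f = 0 → ‖y‖ ≤ 1) (i : ℕ) :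
    ‖((f.coeff i : ℚ) : ℚ_[p])‖ ≤ 1 := by
  obtain ⟨g, hg⟩ : ∃ g : (PadicAlgCl p)[X], g = f.map (algebraMap ℚ (PadicAlgCl p)) := ⟨_, rfl⟩
  have hgm : g.Monic := by rw [hg]; exact hf.map _
  have hs : g.Splits := IsAlgClosed.splits g
  obtain ⟨s, hs⟩ := splits_iff_exists_multiset.1 hs
  rw [hgm.leadingCoeff, C_1, one_mul] at hs
  have hsroot : ∀ y ∈ s, ‖y‖ ≤ 1 := by
    intro y hy
    refine hroot y ?_
    rw [aeval_def, ← eval_map, ← hg, hs, eval_multiset_prod, Multiset.prod_eq_zero_iff,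
      Multiset.mem_map]
    exact ⟨X - C y, Multiset.mem_map.2 ⟨y, hy, rfl⟩, by simp⟩
  have hmem : g ∈ liftsRing (ball p).subtype := by
    rw [hs]
    refine Subring.multiset_prod_mem _ _ fun q hq => ?_
    obtain ⟨y, hy, rfl⟩ := Multiset.mem_map.1 hq
    refine Subring.sub_mem _ ?_ ?_
    · rw [← lifts_iff_liftsRing]
      exact X_mem_lifts _
    · rw [← lifts_iff_liftsRing]
      exact C'_mem_lifts ⟨⟨y, hsroot y hy⟩, rfl⟩
  rw [← lifts_iff_liftsRing, lifts_iff_coeff_lifts] at hmem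
  obtain ⟨z, hz⟩ := hmem i
  have h1 : ‖g.coeff i‖ ≤ 1 := by
    rw [← hz]
    exact z.2
  rw [hg, coeff_map] at h1
  have h2 : algebraMap ℚ (PadicAlgCl p) (f.coeff i) =
      algebraMap ℚ_[p] (PadicAlgCl p) ((f.coeff i : ℚ) : ℚ_[p]) := by
    rw [eq_ratCast, map_ratCast]
  rw [h2] at h1
  rw [← PadicAlgCl.norm_extends]
  exact h1

end ALGH

open Polynomial ALGH in
theorem ALG_thm : ALGStmt.{u} := by
  intro F _ _ x hx hx0 hroot
  by_contra hcon
  rw [not_or] at hcon
  obtain ⟨h1, h2⟩ := hcon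
  push Not at h1 h2
  have hint : IsIntegral ℚ x := hx.isIntegral
  have hm := minpoly.monic hint
  -- integrality
  have hZ : IsIntegral ℤ x := by
    by_contra hnot
    have h3 : ∃ i, ∀ z : ℤ, (z : ℚ) ≠ (minpoly ℚ x).coeff i := by
      by_contra h4
      push Not at h4
      apply hnot
      have h5 : minpoly ℚ x ∈ lifts (Int.castRingHom ℚ) := by
        rw [lifts_iff_coeff_lifts]
        intro i
        obtain ⟨z, hz⟩ := h4 i
        exact ⟨z, hz⟩
      obtain ⟨q, hq, -, hqm⟩ := lifts_and_degree_eq_and_monic h5 hm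
      refine ⟨q, hqm, ?_⟩
      have h6 : aeval x (minpoly ℚ x) = 0 := minpoly.aeval ℚ x
      rw [← hq, aeval_def, eval₂_map] at h6
      have h7 : algebraMap ℤ F = (algebraMap ℚ F).comp (Int.castRingHom ℚ) :=
        RingHom.ext_int _ _
      rw [h7]
      exact h6
    obtain ⟨i, hi⟩ := h3
    obtain ⟨p, hp, hnorm⟩ := exists_prime _ hi
    have h4 := coeff_le p (minpoly ℚ x) hm (fun y hy => (h2 p hp y hy).le) i
    exact absurd hnorm (not_lt.2 h4)
  -- Kronecker
  have hfd : FiniteDimensional ℚ (IntermediateField.adjoin ℚ {x}) :=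
    IntermediateField.adjoin.finiteDimensional hint
  have hnf : NumberField (IntermediateField.adjoin ℚ {x}) := ⟨⟩
  obtain ⟨g, hg⟩ : ∃ g : IntermediateField.adjoin ℚ {x}, g = IntermediateField.AdjoinSimple.gen ℚ x :=
    ⟨_, rfl⟩
  have hgx : (g : F) = x := by rw [hg]; exact IntermediateField.AdjoinSimple.coe_gen ℚ x
  have hgint : IsIntegral ℤ g := by
    refine (isIntegral_algHom_iff
      ((IntermediateField.adjoin ℚ {x}).val.restrictScalars ℤ) Subtype.val_injective).1 ?_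
    change IsIntegral ℤ (g : F)
    rw [hgx]
    exact hZ
  obtain ⟨n, hn, hgn⟩ := NumberField.Embeddings.pow_eq_one_of_norm_eq_one
    (IntermediateField.adjoin ℚ {x}) ℂ hgint (fun φ => by
      refine h1 (φ g) ?_
      have h3 : aeval g (minpoly ℚ x) = 0 := by
        apply Subtype.val_injective
        have h4 : ((aeval g (minpoly ℚ x) : IntermediateField.adjoin ℚ {x}) : F) =
            aeval (g : F) (minpoly ℚ x) := by
          exact (aeval_algHom_apply (IntermediateField.adjoin ℚ {x}).val g (minpoly ℚ x)).symm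
        rw [h4, hgx, minpoly.aeval]
        rfl
      have h4 := congrArg φ h3
      rw [map_zero] at h4
      have h5 : aeval (φ g) (minpoly ℚ x) = φ (aeval g (minpoly ℚ x)) := by
        have := aeval_algHom_apply φ.toRatAlgHom g (minpoly ℚ x)
        exact this
      rw [h5, h4])
  refine hroot n hn ?_
  have h3 : ((g ^ n : IntermediateField.adjoin ℚ {x}) : F) = 1 := by
    rw [hgn]
    rfl
  rw [← hgx]
  exact h3

end Pool.BTL
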